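import Pool.Agent.W751.RV.Stm

set_option autoImplicit false

open Polynomial MeasureTheory

namespace Pool.Agent.W641.RV

open Pool.Agent.W751.CD Pool.Agent.W751.CV Pool.Agent.W751.RV

lemma cont_coeff {N : ℕ} (s : Finset (Fin N)) (k : ℕ) :
    Continuous fun z : Fin N → ℂ => (∏ i ∈ s, (X - C (z i)) : ℂ[X]).coeff k := by
  classical
  induction s using Finset.induction_on generalizing k with
  | empty => simpa using continuous_const
  | insert a s ha ih =>
    simp only [Finset.prod_insert ha, sub_mul, coeff_sub, coeff_C_mul]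
    refine Continuous.sub ?_ ((continuous_apply a).mul (ih k))
    cases k with
    | zero => simpa using continuous_const
    | succ k => simpa [coeff_X_mul] using ih k

lemma cont_Phi (N : ℕ) : Continuous (Phi : (Fin N → ℂ) → (Fin N → ℂ)) := by
  refine continuous_pi fun k => ?_
  exact cont_coeff Finset.univ k

theorem t_COEF2 : S_COEF2 := by
  intro hZ hC N ρ σ hρ hσ B hB
  have hmeas : Measurable (Phi : (Fin N → ℂ) → (Fin N → ℂ)) := (cont_Phi N).measurable
  have key : ∀ r : ℝ, 0 < r → (mu r N).map Phi =
      (N.factorial : ENNReal) • (volume : Measure (Fin N → ℂ)).restrict (Om 0 r N) := by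
    intro r hr
    ext S hS
    rw [Measure.map_apply hmeas hS, Measure.smul_apply, Measure.restrict_apply hS, smul_eq_mul,
      hC N 0 r hr S hS]
    simp only [add_zero]
    rfl
  have hfin : ∀ r : ℝ, 0 < r → IsFiniteMeasure (mu r N) := by
    intro r hr
    exact ⟨by rw [(hZ r N hr).1]; exact ENNReal.ofReal_lt_top⟩
  have := hfin ρ hρ
  have := hfin σ hσ
  have h1 : (mm ρ σ N).map (Prod.map Phi Phi) =
      ((mu ρ N).map Phi).prod ((mu σ N).map Phi) := by
    rw [mm, Measure.map_prod_map _ _ hmeas hmeas]
  have h2 : mm ρ σ N {x | (Phi x.1, Phi x.2) ∈ B} = (mm ρ σ N).map (Prod.map Phi Phi) B := by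
    rw [Measure.map_apply (hmeas.prodMap hmeas) hB]
    rfl
  rw [h2, h1, key ρ hρ, key σ hσ, Measure.prod_smul_left, Measure.prod_smul_right,
    Measure.prod_restrict, smul_smul, Measure.smul_apply, Measure.restrict_apply hB, smul_eq_mul]
  rfl

end Pool.Agent.W641.RV
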